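import Pool.Agent.V7H42.PD.Bound

/-!
# The pushdown automaton and its template words
-/

set_option autoImplicit false

namespace Pool.Agent.V7H42.PD

/-- the alphabet: begin an item that is chosen or skipped, push or pop a token, push or pop a
marker, end a list of items -/
inductive Lt
  | c | s | plus | minus | mk | unmk | fin
  deriving DecidableEq

instance : Fintype Lt :=
  ⟨{.c, .s, .plus, .minus, .mk, .unmk, .fin}, fun x => by cases x <;> simp⟩

/-- The automaton.  The first component of the state says whether the letters are executed, the
second one whether an item of the current list has been chosen. -/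
def aut : DPDA Lt (Bool × Bool) Bool where
  start := (true, false)
  accept := Set.univ
  step := fun q top a => match a with
    | .c => if q.2 then none else some ((true, true), top.toList)
    | .s => some ((false, q.2), top.toList)
    | .fin => if q.2 then some ((false, false), top.toList) else none
    | .plus => if q.1 then some (q, false :: top.toList) else some (q, top.toList)
    | .mk => if q.1 then some (q, true :: top.toList) else some (q, top.toList)
    | .minus => if q.1 then (if top = some false then some (q, []) else none)
        else some (q, top.toList)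
    | .unmk => if q.1 then (if top = some true then some (q, []) else none)
        else some (q, top.toList)

/-- the run -/
def run (r : Option ((Bool × Bool) × List Bool)) (w : List Lt) :
    Option ((Bool × Bool) × List Bool) := w.foldl aut.next r

theorem run_none (w : List Lt) : run none w = none := by
  induction w with
  | nil => rfl
  | cons a w ih => exact ih

theorem run_append (r : Option ((Bool × Bool) × List Bool)) (w w' : List Lt) :
    run r (w ++ w') = run (run r w) w' := List.foldl_append ..

theorem run_cons (r : Option ((Bool × Bool) × List Bool)) (a : Lt) (w : List Lt) :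
    run r (a :: w) = run (aut.next r a) w := rfl

theorem next_c (e ch : Bool) (st : List Bool) :
    aut.next (some ((e, ch), st)) .c = if ch then none else some ((true, true), st) := by
  cases st <;> cases ch <;> rfl

theorem next_s (e ch : Bool) (st : List Bool) :
    aut.next (some ((e, ch), st)) .s = some ((false, ch), st) := by
  cases st <;> rfl

theorem next_fin (e ch : Bool) (st : List Bool) :
    aut.next (some ((e, ch), st)) .fin = if ch then some ((false, false), st) else none := by
  cases st <;> cases ch <;> rfl

/-- the letters of the code of an item -/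
def IsCode (a : Lt) : Prop := a = .plus ∨ a = .minus ∨ a = .mk ∨ a = .unmk

theorem skip_code (ch : Bool) (st : List Bool) (w : List Lt) (hw : ∀ a ∈ w, IsCode a) :
    run (some ((false, ch), st)) w = some ((false, ch), st) := by
  induction w with
  | nil => rfl
  | cons a w ih =>
    have h1 : aut.next (some ((false, ch), st)) a = some ((false, ch), st) := by
      rcases hw a (List.mem_cons_self ..) with rfl | rfl | rfl | rfl <;> cases st <;> rfl
    rw [run_cons, h1]
    exact ih fun a ha => hw a (List.mem_cons_of_mem _ ha)

/-- the effect of a code on the stack -/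
def ex : List Lt → List Bool → Option (List Bool)
  | [], st => some st
  | .plus :: w, st => ex w (false :: st)
  | .mk :: w, st => ex w (true :: st)
  | .minus :: w, false :: st => ex w st
  | .unmk :: w, true :: st => ex w st
  | _ :: _, _ => none

theorem exec_code (ch : Bool) (w : List Lt) (hw : ∀ a ∈ w, IsCode a) : ∀ st : List Bool,
    run (some ((true, ch), st)) w = (ex w st).map fun st' => ((true, ch), st') := by
  induction w with
  | nil => intro st; rfl
  | cons a w ih =>
    intro st
    have ih' := ih fun a ha => hw a (List.mem_cons_of_mem _ ha)
    rw [run_cons]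
    rcases hw a (List.mem_cons_self ..) with rfl | rfl | rfl | rfl
    · have h1 : aut.next (some ((true, ch), st)) .plus = some ((true, ch), false :: st) := by
        cases st <;> rfl
      rw [h1, ih']
      rfl
    · rcases st with _ | ⟨_ | _, st⟩
      · exact run_none w
      · have h1 : aut.next (some ((true, ch), false :: st)) .minus = some ((true, ch), st) := rfl
        rw [h1, ih']
        rfl
      · exact run_none w
    · have h1 : aut.next (some ((true, ch), st)) .mk = some ((true, ch), true :: st) := by
        cases st <;> rfl
      rw [h1, ih']
      rfl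
    · rcases st with _ | ⟨_ | _, st⟩
      · exact run_none w
      · exact run_none w
      · have h1 : aut.next (some ((true, ch), true :: st)) .unmk = some ((true, ch), st) := rfl
        rw [h1, ih']
        rfl

/-! ### items and lists of items -/

/-- the letter of a mark -/
def mkLetter (b : Bool) : Lt := if b then .c else .s

/-- a list of items -/
def items {I : Type} (code : I → List Lt) (js : List I) (ν : I → Bool) : List Lt :=
  js.flatMap fun j => mkLetter (ν j) :: code j

theorem run_items_chosen {I : Type} (code : I → List Lt) (hcode : ∀ j, ∀ a ∈ code j, IsCode a)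
    (ν : I → Bool) (js : List I) : ∀ (e : Bool) (st : List Bool),
    run (some ((e, true), st)) (items code js ν ++ [.fin]) =
      if ∀ j ∈ js, ν j = false then some ((false, false), st) else none := by
  induction js with
  | nil =>
    intro e st
    show aut.next (some ((e, true), st)) .fin = _
    rw [next_fin]; simp
  | cons j js ih =>
    intro e st
    have e1 : items code (j :: js) ν ++ [.fin] =
        mkLetter (ν j) :: (code j ++ (items code js ν ++ [.fin])) := by
      simp [items]
    rw [e1, run_cons]
    cases hν : ν j
    · show run (aut.next (some ((e, true), st)) .s) _ = _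
      rw [next_s, run_append, skip_code _ _ _ (hcode j), ih]
      simp [hν]
    · show run (aut.next (some ((e, true), st)) .c) _ = _
      rw [next_c, if_pos rfl, run_none]
      simp [hν]

theorem run_items {I : Type} [DecidableEq I] (code : I → List Lt)
    (hcode : ∀ j, ∀ a ∈ code j, IsCode a)
    (ν : I → Bool) (js : List I) (hjs : js.Nodup) : ∀ (e : Bool) (st : List Bool)
    (r : (Bool × Bool) × List Bool),
    run (some ((e, false), st)) (items code js ν ++ [.fin]) = some r ↔
      r.1 = (false, false) ∧ ∃ j ∈ js, (∀ j' ∈ js, ν j' = true ↔ j' = j) ∧
        ex (code j) st = some r.2 := by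
  induction js with
  | nil =>
    intro e st r
    show aut.next (some ((e, false), st)) .fin = some r ↔ _
    rw [next_fin]; simp
  | cons j js ih =>
    intro e st r
    obtain ⟨h1, h2⟩ := List.nodup_cons.1 hjs
    have e1 : items code (j :: js) ν ++ [.fin] =
        mkLetter (ν j) :: (code j ++ (items code js ν ++ [.fin])) := by
      simp [items]
    rw [e1, run_cons]
    cases hν : ν j
    · show run (aut.next (some ((e, false), st)) .s) _ = _ ↔ _
      rw [next_s, run_append, skip_code _ _ _ (hcode j), ih h2]
      constructor
      · rintro ⟨h3, j₀, h4, h5, h6⟩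
        refine ⟨h3, j₀, List.mem_cons_of_mem _ h4, fun j' hj' => ?_, h6⟩
        rcases List.mem_cons.1 hj' with rfl | hj'
        · rw [hν]
          constructor
          · intro h; exact absurd h (by simp)
          · rintro rfl; exact absurd h4 h1
        · exact h5 j' hj'
      · rintro ⟨h3, j₀, h4, h5, h6⟩
        have h7 : j₀ ≠ j := by
          rintro rfl
          have := (h5 j₀ (List.mem_cons_self ..)).2 rfl
          rw [hν] at this; exact absurd this (by simp)
        exact ⟨h3, j₀, (List.mem_cons.1 h4).resolve_left h7,
          fun j' hj' => h5 j' (List.mem_cons_of_mem _ hj'), h6⟩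
    · show run (aut.next (some ((e, false), st)) .c) _ = _ ↔ _
      rw [next_c, if_neg (by simp), run_append, exec_code _ _ (hcode j)]
      rcases hex : ex (code j) st with _ | st'
      · simp only [Option.map_none, run_none]
        constructor
        · intro h; exact absurd h (by simp)
        · rintro ⟨h3, j₀, h4, h5, h6⟩
          have := (h5 j (List.mem_cons_self ..)).1 hν
          subst this
          rw [hex] at h6
          exact absurd h6 (by simp)
      · simp only [Option.map_some]
        rw [run_items_chosen code hcode]
        constructor
        · intro h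
          split_ifs at h with h3
          injection h with h
          subst h
          refine ⟨rfl, j, List.mem_cons_self .., fun j' hj' => ?_, hex⟩
          rcases List.mem_cons.1 hj' with rfl | hj''
          · exact iff_of_true hν rfl
          · rw [h3 j' hj'']
            constructor
            · intro h; exact absurd h (by simp)
            · intro h; rw [h] at hj''; exact absurd hj'' h1
        · rintro ⟨h3, j₀, h4, h5, h6⟩
          have := (h5 j (List.mem_cons_self ..)).1 hν
          subst this
          rw [if_pos, ← h3]
          · rw [hex] at h6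
            injection h6 with h6
            rw [h6]
          · intro j' hj'
            rw [← Bool.not_eq_true, h5 j' (List.mem_cons_of_mem _ hj')]
            rintro rfl
            exact h1 hj'

/-! ### the codes -/

/-- pop `a` tokens and a marker -/
def popCode (a : ℕ) : List Lt := List.replicate a .minus ++ [.unmk]

/-- push a marker and `b` tokens -/
def pushCode (b : ℕ) : List Lt := .mk :: List.replicate b .plus

theorem isCode_pop (a : ℕ) : ∀ x ∈ popCode a, IsCode x := by
  intro x hx
  simp only [popCode, List.mem_append, List.mem_replicate, List.mem_singleton] at hx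
  rcases hx with ⟨_, rfl⟩ | rfl <;> simp [IsCode]

theorem isCode_push (b : ℕ) : ∀ x ∈ pushCode b, IsCode x := by
  intro x hx
  simp only [pushCode, List.mem_cons, List.mem_replicate] at hx
  rcases hx with rfl | ⟨_, rfl⟩ <;> simp [IsCode]

/-- the stack with `x` tokens above a marker -/
def stk (x : ℕ) (st : List Bool) : List Bool := List.replicate x false ++ true :: st

theorem ex_pop (a : ℕ) (w : List Lt) : ∀ (x : ℕ) (st : List Bool),
    ex (popCode a ++ w) (stk x st) = if a = x then ex w st else none := by
  induction a with
  | zero =>
    intro x st
    cases x with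
    | zero => rfl
    | succ x => rfl
  | succ a ih =>
    intro x st
    cases x with
    | zero => rfl
    | succ x =>
      have h1 : ex (popCode (a + 1) ++ w) (stk (x + 1) st) = ex (popCode a ++ w) (stk x st) := rfl
      rw [h1, ih]
      simp

theorem ex_plus (b : ℕ) (w : List Lt) : ∀ st : List Bool,
    ex (List.replicate b .plus ++ w) st = ex w (List.replicate b false ++ st) := by
  induction b with
  | zero => intro st; rfl
  | succ b ih =>
    intro st
    have h1 : ex (List.replicate (b + 1) .plus ++ w) st =
      ex (List.replicate b .plus ++ w) (false :: st) := rfl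
    rw [h1, ih]
    congr 1
    rw [List.replicate_succ', List.append_assoc]
    rfl

theorem ex_push (b : ℕ) (w : List Lt) (st : List Bool) :
    ex (pushCode b ++ w) st = ex w (stk b st) := by
  have h1 : ex (pushCode b ++ w) st = ex (List.replicate b .plus ++ w) (true :: st) := rfl
  rw [h1, ex_plus]
  rfl

/-- the code of an item at a node -/
def code {n : ℕ} : ℕ → J n → List Lt
  | 0, j => popCode j.1
  | _ + 1, j => popCode j.1 ++ (pushCode (j.2 2) ++ (pushCode (j.2 1) ++ pushCode (j.2 0)))

theorem isCode_code {n : ℕ} (m : ℕ) (j : J n) : ∀ a ∈ code m j, IsCode a := by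
  cases m with
  | zero => exact isCode_pop _
  | succ m =>
    intro a ha
    simp only [code, List.mem_append] at ha
    rcases ha with ha | ha | ha | ha
    · exact isCode_pop _ a ha
    · exact isCode_push _ a ha
    · exact isCode_push _ a ha
    · exact isCode_push _ a ha

theorem ex_code_zero {n : ℕ} (j : J n) (x : ℕ) (st : List Bool) :
    ex (code 0 j) (stk x st) = if (j.1 : ℕ) = x then some st else none := by
  have := ex_pop j.1 [] x st
  rw [List.append_nil] at this
  exact this

theorem ex_code_succ {n : ℕ} (m : ℕ) (j : J n) (x : ℕ) (st : List Bool) :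
    ex (code (m + 1) j) (stk x st) =
      if (j.1 : ℕ) = x then some (stk (j.2 0) (stk (j.2 1) (stk (j.2 2) st))) else none := by
  show ex (popCode j.1 ++ (pushCode (j.2 2) ++ (pushCode (j.2 1) ++ pushCode (j.2 0)))) _ = _
  rw [ex_pop]
  congr 1
  rw [ex_push, ex_push]
  have := ex_push (j.2 0) [] (stk (j.2 1) (stk (j.2 2) st))
  rw [List.append_nil] at this
  exact this

/-! ### the template -/

/-- the items -/
noncomputable def allJ (n : ℕ) : List (J n) := (Finset.univ : Finset (J n)).toList

theorem allJ_nodup (n : ℕ) : (allJ n).Nodup := Finset.nodup_toList _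

theorem mem_allJ {n : ℕ} (j : J n) : j ∈ allJ n := Finset.mem_toList.2 (Finset.mem_univ _)

/-- the template: marks (holes) and fixed letters -/
noncomputable def tmp (n : ℕ) : ∀ m, List ((T m × J n) ⊕ Lt)
  | 0 => ((allJ n).flatMap fun j => .inl (rt 0, j) :: (code 0 j).map .inr) ++ [.inr .fin]
  | m + 1 => ((allJ n).flatMap fun j => .inl (rt (m + 1), j) :: (code (m + 1) j).map .inr) ++
      .inr .fin :: (List.finRange 3).flatMap fun i =>
        (tmp n m).map (Sum.map (fun vj => (sub i vj.1, vj.2)) id)

/-- filling the holes -/
def fill {n m : ℕ} (μ : T m × J n → Bool) : (T m × J n) ⊕ Lt → Lt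
  | .inl vj => mkLetter (μ vj)
  | .inr a => a

theorem map_fill_items {n m : ℕ} (k : ℕ) (v : T m) (μ : T m × J n → Bool) :
    ((allJ n).flatMap fun j => (.inl (v, j) :: (code k j).map .inr :
      List ((T m × J n) ⊕ Lt))).map (fill μ) = items (code k) (allJ n) (fun j => μ (v, j)) := by
  rw [List.map_flatMap, items]
  congr 1
  funext j
  simp only [List.map_cons, List.map_map]
  congr 1
  have : fill μ ∘ Sum.inr = id := rfl
  rw [this, List.map_id]

theorem map_fill_sub {n m : ℕ} (i : Fin 3) (μ : T (m + 1) × J n → Bool) :
    ((tmp n m).map (Sum.map (fun vj => (sub i vj.1, vj.2)) id)).map (fill μ) =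
      (tmp n m).map (fill fun vj => μ (sub i vj.1, vj.2)) := by
  rw [List.map_map]
  congr 1
  funext y
  cases y <;> rfl

theorem run_template {n : ℕ} : ∀ (m : ℕ) (μ : T m × J n → Bool) (x : ℕ) (e : Bool)
    (st : List Bool) (r : (Bool × Bool) × List Bool),
    run (some ((e, false), stk x st)) ((tmp n m).map (fill μ)) = some r ↔
      Good m μ x ∧ r = ((false, false), st)
  | 0, μ, x, e, st, r => by
    classical
    rw [tmp, List.map_append, map_fill_items]
    show run _ (items (code 0) (allJ n) (fun j => μ (rt 0, j)) ++ [.fin]) = _ ↔ _
    rw [run_items _ (isCode_code 0) _ _ (allJ_nodup n)]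
    constructor
    · rintro ⟨h1, j, _, h2, h3⟩
      rw [ex_code_zero] at h3
      split_ifs at h3 with h4
      injection h3 with h3
      exact ⟨⟨j, fun j' => h2 j' (mem_allJ _), h4⟩,
        Prod.ext h1 h3.symm⟩
    · rintro ⟨⟨j, h1, h2⟩, rfl⟩
      refine ⟨rfl, j, mem_allJ _, fun j' _ => h1 j', ?_⟩
      rw [ex_code_zero, if_pos h2]
  | m + 1, μ, x, e, st, r => by
    classical
    have e1 : (tmp n (m + 1)).map (fill μ) =
        (items (code (m + 1)) (allJ n) (fun j => μ (rt (m + 1), j)) ++ [.fin]) ++
          ((tmp n m).map (fill fun vj => μ (sub 0 vj.1, vj.2)) ++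
          ((tmp n m).map (fill fun vj => μ (sub 1 vj.1, vj.2)) ++
          (tmp n m).map (fill fun vj => μ (sub 2 vj.1, vj.2)))) := by
      rw [tmp, List.map_append, map_fill_items, List.map_cons, List.append_assoc]
      congr 1
      show Lt.fin :: List.map (fill μ) _ = Lt.fin :: _
      congr 1
      have : (List.finRange 3) = [0, 1, 2] := by decide
      rw [this]
      simp only [List.flatMap_cons, List.flatMap_nil, List.append_nil, List.map_append]
      rw [map_fill_sub, map_fill_sub, map_fill_sub]
      rfl
    rw [e1, run_append, run_append, run_append]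
    rcases hrun : run (some ((e, false), stk x st))
        (items (code (m + 1)) (allJ n) (fun j => μ (rt (m + 1), j)) ++ [.fin]) with _ | r₀
    · rw [hrun, run_none, run_none, run_none]
      constructor
      · intro h; exact absurd h (by simp)
      · rintro ⟨⟨j, h1, h2, _⟩, _⟩
        have := (run_items (code (m + 1)) (isCode_code (m + 1)) (fun j => μ (rt (m + 1), j))
          (allJ n) (allJ_nodup n) e (stk x st)
          ((false, false), stk (j.2 0) (stk (j.2 1) (stk (j.2 2) st)))).2
          ⟨rfl, j, mem_allJ _, fun j' _ => h1 j', by
            rw [ex_code_succ, if_pos h2]⟩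
        rw [hrun] at this
        exact absurd this (by simp)
    · obtain ⟨h1, j, _, h2, h3⟩ := (run_items (code (m + 1)) (isCode_code (m + 1))
        (fun j => μ (rt (m + 1), j)) (allJ n) (allJ_nodup n) e (stk x st) r₀).1 hrun
      rw [ex_code_succ] at h3
      split_ifs at h3 with h4
      injection h3 with h3
      have e2 : r₀ = ((false, false), stk (j.2 0) (stk (j.2 1) (stk (j.2 2) st))) :=
        Prod.ext h1 h3.symm
      rw [hrun, e2]
      have h2' : ∀ j', μ (rt (m + 1), j') = true ↔ j' = j := fun j' =>
        h2 j' (mem_allJ _)
      -- the three subtrees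
      constructor
      · intro h
        rcases g0 : run (some ((false, false), stk (j.2 0) (stk (j.2 1) (stk (j.2 2) st))))
          ((tmp n m).map (fill fun vj => μ (sub 0 vj.1, vj.2))) with _ | r₁
        · rw [g0, run_none, run_none] at h; exact absurd h (by simp)
        rw [g0] at h
        obtain ⟨k0, rfl⟩ := (run_template m _ _ _ _ _).1 g0
        rcases g1 : run (some ((false, false), stk (j.2 1) (stk (j.2 2) st)))
          ((tmp n m).map (fill fun vj => μ (sub 1 vj.1, vj.2))) with _ | r₂
        · rw [g1, run_none] at h; exact absurd h (by simp)
        rw [g1] at h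
        obtain ⟨k1, rfl⟩ := (run_template m _ _ _ _ _).1 g1
        obtain ⟨k2, rfl⟩ := (run_template m _ _ _ _ _).1 h
        refine ⟨⟨j, h2', h4, fun i => ?_⟩, rfl⟩
        fin_cases i
        · exact k0
        · exact k1
        · exact k2
      · rintro ⟨⟨j₁, h5, h6, h7⟩, rfl⟩
        have : j₁ = j := (h2' j₁).1 ((h5 j₁).2 rfl)
        subst this
        rw [(run_template m _ _ _ _ _).2 ⟨h7 0, rfl⟩, (run_template m _ _ _ _ _).2 ⟨h7 1, rfl⟩]
        exact (run_template m _ _ _ _ _).2 ⟨h7 2, rfl⟩

/-- the full template -/
noncomputable def full (n m : ℕ) : List ((T m × J n) ⊕ Lt) := .inr .mk :: tmp n m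

theorem accepts_full {n m : ℕ} (μ : T m × J n → Bool) :
    aut.Accepts ((full n m).map (fill μ)) ↔ Good m μ 0 := by
  have h1 : ∀ r, ((full n m).map (fill μ)).foldl aut.next (some (aut.start, [])) = some r ↔
      Good m μ 0 ∧ r = ((false, false), []) := by
    intro r
    have := run_template m μ 0 true [] r
    exact this
  constructor
  · rintro ⟨q, s, h2, _⟩
    exact ((h1 _).1 h2).1
  · intro h
    exact ⟨(false, false), [], (h1 _).2 ⟨h, rfl⟩, Set.mem_univ _⟩

end Pool.Agent.V7H42.PD
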