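import Mathlib

/-!
# Complete ternary trees and their cutwidth
-/

set_option autoImplicit false

namespace Pool.Agent.V7H42.PD

/-- the nodes of the complete ternary tree of height `m` -/
def T : ℕ → Type
  | 0 => Unit
  | m + 1 => Option (Fin 3 × T m)

noncomputable instance instFT : ∀ m, Fintype (T m)
  | 0 => inferInstanceAs (Fintype Unit)
  | m + 1 => letI := instFT m; inferInstanceAs (Fintype (Option (Fin 3 × T m)))

instance instDT : ∀ m, DecidableEq (T m)
  | 0 => inferInstanceAs (DecidableEq Unit)
  | m + 1 => letI := instDT m; inferInstanceAs (DecidableEq (Option (Fin 3 × T m)))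

/-- the root -/
def rt : ∀ m, T m
  | 0 => ()
  | _ + 1 => none

/-- the node `v` of the `i`-th subtree -/
def sub {m : ℕ} (i : Fin 3) (v : T m) : T (m + 1) := some (i, v)

theorem sub_inj {m : ℕ} {i i' : Fin 3} {v v' : T m} (h : sub i v = sub i' v') : i = i' ∧ v = v' := by
  unfold sub at h
  injection h with h
  injection h with h1 h2
  exact ⟨h1, h2⟩

theorem sub_ne_rt {m : ℕ} (i : Fin 3) (v : T m) : sub i v ≠ rt (m + 1) := by
  intro h
  exact Option.some_ne_none _ h

/-- the parent of a node and the number of the node among its siblings -/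
def par : ∀ m, T m → Option (T m × Fin 3)
  | 0, _ => none
  | _ + 1, none => none
  | m + 1, some (i, v) => match par m v with
    | none => some (rt (m + 1), i)
    | some (p, k) => some (sub i p, k)

theorem par_rt : ∀ m, par m (rt m) = none
  | 0 => rfl
  | _ + 1 => rfl

theorem par_sub_rt {m : ℕ} (i : Fin 3) : par (m + 1) (sub i (rt m)) = some (rt (m + 1), i) := by
  show (match par m (rt m) with
    | none => some (rt (m + 1), i)
    | some (p, k) => some (sub i p, k)) = _
  rw [par_rt]

theorem par_sub_some {m : ℕ} (i : Fin 3) {v p : T m} {k : Fin 3} (h : par m v = some (p, k)) :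
    par (m + 1) (sub i v) = some (sub i p, k) := by
  show (match par m v with
    | none => some (rt (m + 1), i)
    | some (p, k) => some (sub i p, k)) = _
  rw [h]

theorem eq_rt_of_par : ∀ {m : ℕ} {v : T m}, par m v = none → v = rt m
  | 0, () => fun _ => rfl
  | _ + 1, none => fun _ => rfl
  | m + 1, some (i, v) => by
    intro h
    rcases hp : par m v with _ | ⟨p, k⟩
    · obtain rfl := eq_rt_of_par hp
      exact absurd h (by
        show par (m + 1) (sub i (rt m)) ≠ none
        rw [par_sub_rt]; simp)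
    · exact absurd h (by
        show par (m + 1) (sub i v) ≠ none
        rw [par_sub_some i hp]; simp)

/-- the edge from `c` to its parent is cut by the set `I` -/
def IsCut (m : ℕ) (I : T m → Prop) (c : T m) : Prop :=
  ∃ p k, par m c = some (p, k) ∧ ¬ (I p ↔ I c)

theorem IsCut.sub {m : ℕ} {I : T (m + 1) → Prop} {i : Fin 3} {c : T m}
    (h : IsCut m (fun v => I (PD.sub i v)) c) : IsCut (m + 1) I (PD.sub i c) := by
  obtain ⟨p, k, h1, h2⟩ := h
  exact ⟨PD.sub i p, k, par_sub_some i h1, h2⟩

theorem const_of_no_cut : ∀ (m : ℕ) (I : T m → Prop), (∀ c, ¬ IsCut m I c) →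
    ∀ u, (I u ↔ I (rt m))
  | 0, I, _, () => Iff.rfl
  | m + 1, I, _, none => Iff.rfl
  | m + 1, I, h, some (i, v) => by
    have h1 := const_of_no_cut m (fun v => I (sub i v)) (fun c hc => h _ hc.sub) v
    have h2 : I (rt (m + 1)) ↔ I (sub i (rt m)) := by
      by_contra h3
      exact h (sub i (rt m)) ⟨rt (m + 1), i, par_sub_rt i, h3⟩
    exact h1.trans h2.symm

/-- if no edge of the `i`-th branch is cut then it is on the side of the root -/
theorem branch_const {m : ℕ} (I : T (m + 1) → Prop) (i : Fin 3)
    (h : ∀ v, ¬ IsCut (m + 1) I (sub i v)) (v : T m) : I (sub i v) ↔ I (rt (m + 1)) := by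
  have h1 := const_of_no_cut m (fun v => I (sub i v)) (fun c hc => h _ hc.sub) v
  have h2 : I (rt (m + 1)) ↔ I (sub i (rt m)) := by
    by_contra h3
    exact h (rt m) ⟨rt (m + 1), i, par_sub_rt i, h3⟩
  exact h1.trans h2.symm

theorem exists_sorted (f : Fin 3 → ℕ) (hf : Function.Injective f) :
    ∃ a b c : Fin 3, a ≠ b ∧ c ≠ b ∧ f a < f b ∧ f b < f c := by
  have h01 : f 0 ≠ f 1 := fun h => absurd (hf h) (by decide)
  have h02 : f 0 ≠ f 2 := fun h => absurd (hf h) (by decide)
  have h12 : f 1 ≠ f 2 := fun h => absurd (hf h) (by decide)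
  rcases Nat.lt_or_gt_of_ne h01 with h | h <;> rcases Nat.lt_or_gt_of_ne h02 with h' | h' <;>
    rcases Nat.lt_or_gt_of_ne h12 with h'' | h''
  · exact ⟨0, 1, 2, by decide, by decide, h, h''⟩
  · exact ⟨0, 2, 1, by decide, by decide, h', h''⟩
  · omega
  · exact ⟨2, 0, 1, by decide, by decide, h', h⟩
  · exact ⟨1, 0, 2, by decide, by decide, h, h'⟩
  · omega
  · exact ⟨1, 2, 0, by decide, by decide, h'', h'⟩
  · exact ⟨2, 1, 0, by decide, by decide, h'', h⟩

open Classical in
/-- **The cutwidth of the complete ternary tree.** -/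
theorem exists_cut : ∀ (m : ℕ) (r : T m → ℕ), Function.Injective r →
    ∃ u, ∃ C : Finset (T m), C.card = m ∧ ∀ c ∈ C, IsCut m (fun v => r v < r u) c
  | 0, r, _ => ⟨rt 0, ∅, rfl, by simp⟩
  | m + 1, r, hr => by
    have ih : ∀ i : Fin 3, ∃ u, ∃ C : Finset (T m), C.card = m ∧
        ∀ c ∈ C, IsCut m (fun v => r (sub i v) < r (sub i u)) c := fun i =>
      exists_cut m (fun v => r (sub i v)) fun v v' h => (sub_inj (hr h)).2
    choose u C hC hcut using ih
    obtain ⟨a, b, c, hab, hcb, h1, h2⟩ := exists_sorted (fun i => r (sub i (u i)))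
      fun i i' h => (sub_inj (hr h)).1
    refine ⟨sub b (u b), ?_⟩
    set I : T (m + 1) → Prop := fun v => r v < r (sub b (u b)) with hI
    have hex : ∃ i, i ≠ b ∧ ∃ v, IsCut (m + 1) I (sub i v) := by
      by_contra hno
      push Not at hno
      have e1 := branch_const I a (hno a hab) (u a)
      have e2 := branch_const I c (hno c hcb) (u c)
      have e3 : I (sub c (u c)) := e2.2 (e1.1 h1)
      simp only [hI] at e3
      omega
    obtain ⟨i, hib, v, hv⟩ := hex
    refine ⟨insert (sub i v) ((C b).image (sub b)), ?_, ?_⟩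
    · rw [Finset.card_insert_of_notMem, Finset.card_image_of_injective _ fun x y h => (sub_inj h).2,
        hC]
      intro h
      obtain ⟨w, _, h3⟩ := Finset.mem_image.1 h
      exact hib (sub_inj h3).1.symm
    · intro x hx
      rcases Finset.mem_insert.1 hx with rfl | hx
      · exact hv
      · obtain ⟨w, hw, rfl⟩ := Finset.mem_image.1 hx
        exact IsCut.sub (I := I) (hcut b w hw)

end Pool.Agent.V7H42.PD
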