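import Pool.Agent.V7H42.PD.Defs
import Pool.Agent.V7H42.PD.Tree

/-!
# Consistent labellings of the ternary tree and read-once branching programs
-/

set_option autoImplicit false

namespace Pool.Agent.V7H42.PD

/-- items: a label and the labels of the three children -/
abbrev J (n : ℕ) : Type := Fin n × (Fin 3 → Fin n)

/-- the marks give an item for every node, consistently, with the label `x` of the root -/
def Good {n : ℕ} : ∀ m, (T m × J n → Bool) → ℕ → Prop
  | 0, μ, x => ∃ j : J n, (∀ j', μ (rt 0, j') = true ↔ j' = j) ∧ (j.1 : ℕ) = x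
  | m + 1, μ, x => ∃ j : J n, (∀ j', μ (rt (m + 1), j') = true ↔ j' = j) ∧ (j.1 : ℕ) = x ∧
      ∀ i, Good m (fun vj => μ (sub i vj.1, vj.2)) (j.2 i)

theorem Good.exists_items {n : ℕ} : ∀ {m : ℕ} {μ : T m × J n → Bool} {x : ℕ}, Good m μ x →
    ∃ φ : T m → J n, (∀ v j, μ (v, j) = true ↔ j = φ v) ∧
      (∀ v p k, par m v = some (p, k) → (φ v).1 = (φ p).2 k) ∧ ((φ (rt m)).1 : ℕ) = x
  | 0, μ, x => by
    rintro ⟨j, h1, h2⟩
    exact ⟨fun _ => j, fun v j' => h1 j', fun v p k h => by simp [par] at h, h2⟩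
  | m + 1, μ, x => by
    rintro ⟨j, h1, h2, h3⟩
    have h4 := fun i => (h3 i).exists_items
    choose φ h5 h6 h7 using h4
    let Φ : T (m + 1) → J n := fun v => match v with
      | none => j
      | some (i, u) => φ i u
    have hΦr : Φ (rt (m + 1)) = j := rfl
    have hΦs : ∀ i u, Φ (sub i u) = φ i u := fun _ _ => rfl
    refine ⟨Φ, ?_, ?_, ?_⟩
    · intro v j'
      match v with
      | none => exact h1 j'
      | some (i, u) => exact h5 i u j'
    · intro v p k hv
      match v with
      | none => exact absurd hv (by simp [par])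
      | some (i, u) =>
        rcases hp : par m u with _ | ⟨p', k'⟩
        · obtain rfl := eq_rt_of_par hp
          have h8 : par (m + 1) (sub i (rt m)) = some (p, k) := hv
          rw [par_sub_rt] at h8
          simp only [Option.some.injEq, Prod.mk.injEq] at h8
          obtain ⟨rfl, rfl⟩ := h8
          show (φ i (rt m)).1 = j.2 i
          exact Fin.ext (h7 i)
        · have h8 : par (m + 1) (sub i u) = some (p, k) := hv
          rw [par_sub_some i hp] at h8
          simp only [Option.some.injEq, Prod.mk.injEq] at h8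
          obtain ⟨rfl, rfl⟩ := h8
          exact h6 i u p' k' hp
    · exact h2

/-- the items of a labelling with the label `x` at the root -/
def lab {n : ℕ} : ∀ m, (T m → Fin n) → Fin n → T m → J n
  | 0, _, x => fun _ => (x, fun _ => x)
  | m + 1, ψ, x => fun v => match v with
    | none => (x, fun k => ψ (sub k (rt m)))
    | some (i, u) => lab m (fun v => ψ (sub i v)) (ψ (sub i (rt m))) u

open Classical in
/-- the marks of a labelling -/
noncomputable def marks {n m : ℕ} (ψ : T m → Fin n) (x : Fin n) (vj : T m × J n) : Bool :=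
  decide (vj.2 = lab m ψ x vj.1)

theorem good_marks {n : ℕ} : ∀ (m : ℕ) (ψ : T m → Fin n) (x : Fin n), Good m (marks ψ x) x
  | 0, ψ, x => ⟨lab 0 ψ x (rt 0), by simp [marks], rfl⟩
  | m + 1, ψ, x => ⟨lab (m + 1) ψ x (rt (m + 1)), by simp [marks], rfl, fun i => by
      have := good_marks m (fun v => ψ (sub i v)) (ψ (sub i (rt m)))
      exact this⟩

theorem lab_fst {n : ℕ} : ∀ (m : ℕ) (ψ : T m → Fin n) (x : Fin n) (v p : T m) (k : Fin 3),
    par m v = some (p, k) → (lab m ψ x v).1 = ψ v
  | 0, ψ, x, v, p, k => fun h => by simp [par] at h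
  | m + 1, ψ, x, none, p, k => fun h => by simp [par] at h
  | m + 1, ψ, x, some (i, u), p, k => fun h => by
    show (lab m (fun v => ψ (sub i v)) (ψ (sub i (rt m))) u).1 = ψ (sub i u)
    rcases hp : par m u with _ | ⟨p', k'⟩
    · obtain rfl := eq_rt_of_par hp
      cases m with
      | zero => rfl
      | succ m => rfl
    · exact lab_fst m (fun v => ψ (sub i v)) _ u p' k' hp

theorem mem_marks {n m : ℕ} (ψ : T m → Fin n) (x : Fin n) (v : T m) (j : J n) :
    marks ψ x (v, j) = true ↔ j = lab m ψ x v := by simp [marks]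

section Walks

variable {ι A S : Type} {B : NBP ι A S}

theorem NBP.Walk.append {s t u : S} {l l' : List (ι × Set A)} (h : B.Walk s t l)
    (h' : B.Walk t u l') : B.Walk s u (l ++ l') := by
  induction h with
  | nil s => exact h'
  | free h _ ih => exact .free h (ih h')
  | test h _ ih => exact .test h (ih h')

theorem NBP.Walk.split {s u : S} {l : List (ι × Set A)} (h : B.Walk s u l) (k : ℕ)
    (hk : k ≤ l.length) : ∃ t, B.Walk s t (l.take k) ∧ B.Walk t u (l.drop k) := by
  induction h generalizing k with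
  | nil s => exact ⟨s, by simpa using NBP.Walk.nil s, by simpa using NBP.Walk.nil s⟩
  | free h hw ih =>
    obtain ⟨t', h1, h2⟩ := ih k hk
    exact ⟨t', .free h h1, h2⟩
  | test h hw ih =>
    rcases k with _ | k
    · exact ⟨_, by simpa using NBP.Walk.nil _, by simpa using NBP.Walk.test h hw⟩
    · obtain ⟨t', h1, h2⟩ := ih k (by simpa using hk)
      exact ⟨t', by simpa using NBP.Walk.test h h1, by simpa using h2⟩

end Walks

open Classical in
/-- every place is tested -/
theorem all_tested {n m : ℕ} {S : Type} {B : NBP (T m × J n) Bool S}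
    {x : Fin n} (hB : ∀ μ, B.Accepts μ ↔ Good m μ x) (ψ : T m → Fin n)
    {l : List ((T m × J n) × Set Bool)} (hl : B.Walk B.source B.sink l)
    (hp : ∀ y ∈ l, marks ψ x y.1 ∈ y.2) (vj : T m × J n) : vj ∈ l.map Prod.fst := by
  by_contra hno
  set μ : T m × J n → Bool := Function.update (marks ψ x) vj (!marks ψ x vj) with hμ
  have h1 : B.Accepts μ := by
    refine ⟨l, hl, fun y hy => ?_⟩
    have hne : y.1 ≠ vj := by
      rintro rfl
      exact hno (List.mem_map_of_mem hy)
    rw [hμ, Function.update_of_ne hne]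
    exact hp y hy
  obtain ⟨φ, h2, _, _⟩ := ((hB μ).1 h1).exists_items
  obtain ⟨v, j⟩ := vj
  by_cases hj : j = lab m ψ x v
  · -- the marked item is erased
    have h3 : μ (v, j) = false := by
      rw [hμ, Function.update_self, (mem_marks ψ x v j).2 hj]; rfl
    have h4 : μ (v, φ v) = true := (h2 v (φ v)).2 rfl
    have h5 : (v, φ v) ≠ (v, j) := by
      intro h; rw [h, h3] at h4; exact absurd h4 (by simp)
    rw [hμ, Function.update_of_ne h5, mem_marks] at h4
    exact h5 (by rw [h4, hj])
  · -- a second item is marked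
    have h3 : μ (v, j) = true := by
      rw [hμ, Function.update_self]
      have : marks ψ x (v, j) = false := by
        rw [← Bool.not_eq_true, mem_marks]; exact hj
      rw [this]; rfl
    have h5 : (v, lab m ψ x v) ≠ (v, j) := by
      intro h
      exact hj (Prod.ext_iff.1 h).2.symm
    have h4 : μ (v, lab m ψ x v) = true := by
      rw [hμ, Function.update_of_ne h5, mem_marks]
    exact h5 (by rw [(h2 v _).1 h3, (h2 v _).1 h4])

open Classical in
/-- Two walks that meet in a node. -/
theorem meet {n m : ℕ} {S : Type} {B : NBP (T m × J n) Bool S} (hR : B.ReadOnce)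
    {x : Fin n} (hB : ∀ μ, B.Accepts μ ↔ Good m μ x) {s : S} {ψ ψ' : T m → Fin n}
    {l₁ l₂ l₁' l₂' : List ((T m × J n) × Set Bool)}
    (h₁ : B.Walk B.source s l₁) (h₂ : B.Walk s B.sink l₂)
    (h₁' : B.Walk B.source s l₁') (h₂' : B.Walk s B.sink l₂')
    (hp : ∀ y ∈ l₁ ++ l₂, marks ψ x y.1 ∈ y.2) (hp' : ∀ y ∈ l₁' ++ l₂', marks ψ' x y.1 ∈ y.2)
    {c p : T m} {k : Fin 3} (hc : par m c = some (p, k))
    (hcut : ¬ ((p, lab m ψ x p) ∈ l₁.map Prod.fst ↔ (c, lab m ψ x c) ∈ l₁.map Prod.fst)) :
    ψ' c = ψ c := by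
  -- the places tested before `s` are the same
  have key : ∀ {ψ ψ' : T m → Fin n} {l₁ l₂ l₁' l₂' : List ((T m × J n) × Set Bool)},
      B.Walk B.source s l₁ → B.Walk s B.sink l₂ → B.Walk B.source s l₁' → B.Walk s B.sink l₂' →
      (∀ y ∈ l₁ ++ l₂, marks ψ x y.1 ∈ y.2) → (∀ y ∈ l₁' ++ l₂', marks ψ' x y.1 ∈ y.2) →
      ∀ vj, vj ∈ l₁.map Prod.fst → vj ∈ l₁'.map Prod.fst := by
    intro ψ ψ' l₁ l₂ l₁' l₂' h₁ h₂ h₁' h₂' hp hp' vj hvj
    have h1 := all_tested hB ψ' (h₁'.append h₂') hp' vj
    rw [List.map_append, List.mem_append] at h1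
    refine h1.resolve_right fun h2 => ?_
    have h3 := hR _ (h₁.append h₂')
    rw [List.map_append, List.nodup_append'] at h3
    exact h3.2.2 hvj h2
  have hF : ∀ vj, vj ∈ l₁.map Prod.fst ↔ vj ∈ l₁'.map Prod.fst := fun vj =>
    ⟨key h₁ h₂ h₁' h₂' hp hp' vj, key h₁' h₂' h₁ h₂ hp' hp vj⟩
  -- the mixed input
  have hz : B.Accepts fun vj => if vj ∈ l₁.map Prod.fst then marks ψ x vj else marks ψ' x vj := by
    refine ⟨l₁ ++ l₂', h₁.append h₂', fun y hy => ?_⟩
    rcases List.mem_append.1 hy with hy | hy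
    · have : y.1 ∈ l₁.map Prod.fst := List.mem_map_of_mem hy
      simp only [this, if_true]
      exact hp y (List.mem_append_left _ hy)
    · have h3 := hR _ (h₁.append h₂')
      rw [List.map_append, List.nodup_append'] at h3
      have : y.1 ∉ l₁.map Prod.fst := fun h => h3.2.2 h (List.mem_map_of_mem hy)
      simp only [this, if_false]
      exact hp' y (List.mem_append_right _ hy)
  obtain ⟨φ, h4, h5, _⟩ := ((hB _).1 hz).exists_items
  have h6 : ∀ v, (v, lab m ψ x v) ∈ l₁.map Prod.fst → φ v = lab m ψ x v := by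
    intro v hv
    symm
    rw [← h4 v]
    simp only [hv, if_true]
    exact (mem_marks ψ x v _).2 rfl
  have h7 : ∀ v, (v, lab m ψ' x v) ∉ l₁.map Prod.fst → φ v = lab m ψ' x v := by
    intro v hv
    symm
    rw [← h4 v]
    simp only [hv, if_false]
    exact (mem_marks ψ' x v _).2 rfl
  have h8 : ∀ v, (v, lab m ψ x v) ∉ l₁.map Prod.fst → (v, lab m ψ' x v) ∉ l₁.map Prod.fst := by
    intro v hv hv'
    have h9 : (if (v, φ v) ∈ l₁.map Prod.fst then marks ψ x (v, φ v) else marks ψ' x (v, φ v)) =
      true := (h4 v (φ v)).2 rfl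
    by_cases h10 : (v, φ v) ∈ l₁.map Prod.fst
    · rw [if_pos h10, mem_marks] at h9
      exact hv (h9 ▸ h10)
    · rw [if_neg h10, mem_marks] at h9
      exact h10 (h9 ▸ hv')
  have h9 := lab_fst m ψ x c p k hc
  have h9' := lab_fst m ψ' x c p k hc
  have h10 : (lab m ψ x c).1 = (lab m ψ x p).2 k := by
    obtain ⟨φ₀, g1, g2, _⟩ := (good_marks m ψ x).exists_items
    have e : ∀ v, φ₀ v = lab m ψ x v := fun v => by
      rw [← mem_marks]; exact (g1 v _).2 rfl
    rw [← e, ← e]; exact g2 c p k hc
  have h10' : (lab m ψ' x c).1 = (lab m ψ' x p).2 k := by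
    obtain ⟨φ₀, g1, g2, _⟩ := (good_marks m ψ' x).exists_items
    have e : ∀ v, φ₀ v = lab m ψ' x v := fun v => by
      rw [← mem_marks]; exact (g1 v _).2 rfl
    rw [← e, ← e]; exact g2 c p k hc
  have h11 := h5 c p k hc
  by_cases hpI : (p, lab m ψ x p) ∈ l₁.map Prod.fst
  · have hcI : (c, lab m ψ x c) ∉ l₁.map Prod.fst := fun h => hcut (iff_of_true hpI h)
    rw [h6 p hpI, h7 c (h8 c hcI), h9', ← h10, h9] at h11
    exact h11
  · have hcI : (c, lab m ψ x c) ∈ l₁.map Prod.fst := by
      by_contra h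
      exact hcut (iff_of_false hpI h)
    rw [h6 c hcI, h7 p (h8 p hpI), ← h10', h9', h9] at h11
    exact h11.symm

open Classical in
/-- **The lower bound for the marks.** -/
theorem bound {n m : ℕ} {S : Type} [Fintype S] {B : NBP (T m × J n) Bool S} (hR : B.ReadOnce)
    {x : Fin n} (hB : ∀ μ, B.Accepts μ ↔ Good m μ x) : n ^ m ≤ Fintype.card S := by
  -- for every labelling choose a node with many cut edges
  have hex : ∀ ψ : T m → Fin n, ∃ (s : S) (l₁ l₂ : List ((T m × J n) × Set Bool))
      (C : Finset (T m)), B.Walk B.source s l₁ ∧ B.Walk s B.sink l₂ ∧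
      (∀ y ∈ l₁ ++ l₂, marks ψ x y.1 ∈ y.2) ∧ C.card = m ∧
      ∀ c ∈ C, ∃ p k, par m c = some (p, k) ∧
        ¬ ((p, lab m ψ x p) ∈ l₁.map Prod.fst ↔ (c, lab m ψ x c) ∈ l₁.map Prod.fst) := by
    intro ψ
    obtain ⟨l, hl, hp⟩ := (hB _).2 (good_marks m ψ x)
    have hnd := hR l hl
    have hall := all_tested hB ψ hl hp
    let r : T m → ℕ := fun v => (l.map Prod.fst).idxOf (v, lab m ψ x v)
    have hr : Function.Injective r := by
      intro v v' h
      have := (List.idxOf_inj (hall (v, lab m ψ x v))).1 h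
      exact (Prod.ext_iff.1 this).1
    obtain ⟨u, C, hC, hcut⟩ := exists_cut m r hr
    have hmem : ∀ v, (v, lab m ψ x v) ∈ (l.take (r u)).map Prod.fst ↔ r v < r u := by
      intro v
      rw [List.map_take]
      exact List.mem_take_iff_idxOf_lt (hall _)
    obtain ⟨s, h1, h2⟩ := NBP.Walk.split hl (r u) (by
      have := List.idxOf_lt_length_iff.2 (hall (u, lab m ψ x u))
      simp only [List.length_map] at this
      exact this.le)
    refine ⟨s, _, _, C, h1, h2, by rw [List.take_append_drop]; exact hp, hC, fun c hc => ?_⟩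
    obtain ⟨p, k, h3, h4⟩ := hcut c hc
    exact ⟨p, k, h3, by rwa [hmem, hmem]⟩
  choose s l₁ l₂ C h1 h2 h3 h4 h5 using hex
  -- the fibres of `s` are small
  have hfib : ∀ a : S, (Finset.univ.filter fun ψ => s ψ = a).card * n ^ m ≤
      Fintype.card (T m → Fin n) := by
    intro a
    by_cases hemp : ∃ ψ, s ψ = a
    · obtain ⟨ψ₀, hψ₀⟩ := hemp
      have hsub : (Finset.univ.filter fun ψ => s ψ = a) ⊆
          Fintype.piFinset fun v => if v ∈ C ψ₀ then {ψ₀ v} else Finset.univ := by
        intro ψ hψ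
        simp only [Finset.mem_filter, Finset.mem_univ, true_and] at hψ
        rw [Fintype.mem_piFinset]
        intro c
        by_cases hc : c ∈ C ψ₀
        · rw [if_pos hc, Finset.mem_singleton]
          obtain ⟨p, k, h6, h7⟩ := h5 ψ₀ c hc
          have e1 := h1 ψ
          have e2 := h2 ψ
          rw [hψ, ← hψ₀] at e1 e2
          exact meet hR hB (h1 ψ₀) (h2 ψ₀) e1 e2 (h3 ψ₀) (h3 ψ) h6 h7
        · rw [if_neg hc]; exact Finset.mem_univ _
      have hcard : (Fintype.piFinset fun v => if v ∈ C ψ₀ then {ψ₀ v} else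
          (Finset.univ : Finset (Fin n))).card * n ^ m = Fintype.card (T m → Fin n) := by
        have e : ∀ v, (if v ∈ C ψ₀ then {ψ₀ v} else (Finset.univ : Finset (Fin n))).card =
            if v ∈ C ψ₀ then 1 else n := by
          intro v
          by_cases hv : v ∈ C ψ₀
          · rw [if_pos hv, if_pos hv, Finset.card_singleton]
          · rw [if_neg hv, if_neg hv, Finset.card_univ, Fintype.card_fin]
        rw [Fintype.card_piFinset, Finset.prod_congr rfl fun v _ => e v, Finset.prod_ite,
          Finset.prod_const_one, one_mul, Finset.prod_const, Fintype.card_fun, Fintype.card_fin,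
          ← pow_add]
        congr 1
        have e2 : (Finset.univ.filter fun v => v ∉ C ψ₀) = (C ψ₀)ᶜ := by
          ext v; simp
        rw [e2, Finset.card_compl, h4 ψ₀]
        have : (C ψ₀).card ≤ Fintype.card (T m) := Finset.card_le_univ _
        rw [h4 ψ₀] at this
        omega
      calc _ ≤ _ := Nat.mul_le_mul_right _ (Finset.card_le_card hsub)
        _ = _ := hcard
    · have : (Finset.univ.filter fun ψ => s ψ = a) = ∅ := by
        ext ψ
        simp only [Finset.mem_filter, Finset.mem_univ, true_and, Finset.notMem_empty, iff_false]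
        exact fun h => hemp ⟨ψ, h⟩
      rw [this]; simp
  have hsum : Fintype.card (T m → Fin n) = ∑ a : S, (Finset.univ.filter fun ψ => s ψ = a).card := by
    rw [← Finset.card_univ]
    exact Finset.card_eq_sum_card_fiberwise fun _ _ => Finset.mem_coe.2 (Finset.mem_univ _)
  have h6 : Fintype.card (T m → Fin n) * n ^ m ≤ Fintype.card (T m → Fin n) * Fintype.card S := by
    calc _ = ∑ a : S, (Finset.univ.filter fun ψ => s ψ = a).card * n ^ m := by
          rw [hsum, Finset.sum_mul]
      _ ≤ ∑ _a : S, Fintype.card (T m → Fin n) := Finset.sum_le_sum fun a _ => hfib a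
      _ = _ := by rw [Finset.sum_const, Finset.card_univ, smul_eq_mul, mul_comm]
  have hpos : 0 < Fintype.card (T m → Fin n) := Fintype.card_pos_iff.2 ⟨fun _ => x⟩
  exact Nat.le_of_mul_le_mul_left h6 hpos

end Pool.Agent.V7H42.PD
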