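import Mathlib

/-!
# Deterministic pushdown automata and nondeterministic read-once branching programs
-/

set_option autoImplicit false

namespace Pool.Agent.V7H42.PD

/-- A one-way deterministic pushdown automaton without `ε`-moves, with input alphabet `A`, states `Q`
and stack alphabet `Γ`.  `step q x a` is the action in the state `q` with the top symbol `x` of the
stack (`none` if the stack is empty) when the letter `a` is read: the automaton rejects (`none`), or
it goes to a new state and replaces the top symbol by a list of symbols. -/
structure DPDA (A Q Γ : Type) where
  start : Q
  accept : Set Q
  step : Q → Option Γ → A → Option (Q × List Γ)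

/-- The configuration after reading a letter; a configuration is a state with a stack (the top
symbol is the first one), or `none` after rejection. -/
def DPDA.next {A Q Γ : Type} (M : DPDA A Q Γ) : Option (Q × List Γ) → A → Option (Q × List Γ)
  | none, _ => none
  | some (q, []), a => M.step q none a
  | some (q, x :: s), a => (M.step q (some x) a).map fun r => (r.1, r.2 ++ s)

/-- The automaton accepts the word (in an accepting state; it starts with the empty stack). -/
def DPDA.Accepts {A Q Γ : Type} (M : DPDA A Q Γ) (w : List A) : Prop :=
  ∃ q s, w.foldl M.next (some (M.start, [])) = some (q, s) ∧ q ∈ M.accept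

/-- A nondeterministic branching program with nodes `S`, reading words `w : ι → A`.  Every pair of
nodes can be joined by free edges (`none`) and by edges that test whether the letter at the place `i`
belongs to a set `X` (`some (i, X)`). -/
structure NBP (ι A S : Type) where
  source : S
  sink : S
  edge : S → S → Option (ι × Set A) → Prop

/-- `B.Walk s t l`: there is a path of the branching program from `s` to `t` with the list `l` of
tests. -/
inductive NBP.Walk {ι A S : Type} (B : NBP ι A S) : S → S → List (ι × Set A) → Prop
  | nil (s : S) : Walk B s s []
  | free {s t u : S} {l : List (ι × Set A)} (h : B.edge s t none) (hw : Walk B t u l) : Walk B s u l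
  | test {s t u : S} {x : ι × Set A} {l : List (ι × Set A)} (h : B.edge s t (some x))
      (hw : Walk B t u l) : Walk B s u (x :: l)

/-- The branching program is read-once: on every path from the source to the sink, every place is
tested at most once. -/
def NBP.ReadOnce {ι A S : Type} (B : NBP ι A S) : Prop :=
  ∀ l, B.Walk B.source B.sink l → (l.map Prod.fst).Nodup

/-- The branching program accepts `w` if there is a path from the source to the sink, all of whose
tests are passed. -/
def NBP.Accepts {ι A S : Type} (B : NBP ι A S) (w : ι → A) : Prop :=
  ∃ l, B.Walk B.source B.sink l ∧ ∀ x ∈ l, w x.1 ∈ x.2

/-- The branching program accepts exactly the words of length `N` accepted by the automaton. -/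
def Recognizes {A Q Γ S : Type} {N : ℕ} (B : NBP (Fin N) A S) (M : DPDA A Q Γ) : Prop :=
  ∀ w : Fin N → A, B.Accepts w ↔ M.Accepts (List.ofFn w)

end Pool.Agent.V7H42.PD
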