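import Pool.Agent.V7H42.PD.Automaton

/-!
# The lower bound for the language of the pushdown automaton
-/

set_option autoImplicit false

namespace Pool.Agent.V7H42.PD

/-! ### every hole occurs once -/

/-- no hole occurs twice -/
def Once {X Y : Type} (l : List (X ⊕ Y)) : Prop :=
  l.Pairwise fun a b => ∀ k, a = .inl k → b ≠ .inl k

theorem once_item {X Y : Type} (k : X) (w : List Y) : Once (.inl k :: w.map .inr) := by
  unfold Once
  rw [List.pairwise_cons]
  constructor
  · intro b hb k' _
    obtain ⟨y, _, rfl⟩ := List.mem_map.1 hb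
    simp
  · rw [List.pairwise_map]
    exact List.pairwise_of_forall fun a b k h => by simp at h

theorem once_items {n m : ℕ} (v : T m) (k : ℕ) :
    Once ((allJ n).flatMap fun j => (.inl (v, j) :: (code k j).map .inr :
      List ((T m × J n) ⊕ Lt))) := by
  unfold Once
  rw [List.pairwise_flatMap]
  refine ⟨fun j _ => once_item (v, j) (code k j), ?_⟩
  refine (allJ_nodup n).imp fun {j j'} hne => ?_
  intro a ha b hb vj h h'
  rcases List.mem_cons.1 ha with rfl | ha
  · rcases List.mem_cons.1 hb with rfl | hb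
    · rw [← h'] at h
      simp only [Sum.inl.injEq, Prod.mk.injEq, true_and] at h
      exact hne h
    · obtain ⟨y, _, rfl⟩ := List.mem_map.1 hb
      simp at h'
  · obtain ⟨y, _, rfl⟩ := List.mem_map.1 ha
    simp at h

theorem once_tmp (n : ℕ) : ∀ m, Once (tmp n m)
  | 0 => by
    rw [tmp]
    unfold Once
    rw [List.pairwise_append]
    refine ⟨once_items _ _, List.pairwise_singleton _ _, ?_⟩
    intro a _ b hb k _
    rw [List.mem_singleton.1 hb]
    simp
  | m + 1 => by
    have ih := once_tmp n m
    rw [tmp]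
    unfold Once
    rw [List.pairwise_append]
    have root_item : ∀ a ∈ ((allJ n).flatMap fun j => (.inl (rt (m + 1), j) ::
        (code (m + 1) j).map .inr : List ((T (m + 1) × J n) ⊕ Lt))), ∀ k, a = .inl k →
        k.1 = rt (m + 1) := by
      intro a ha k hk
      obtain ⟨j, _, h⟩ := List.mem_flatMap.1 ha
      rcases List.mem_cons.1 h with rfl | h
      · injection hk with hk
        rw [← hk]
      · obtain ⟨y, _, rfl⟩ := List.mem_map.1 h
        simp at hk
    have sub_item : ∀ (i : Fin 3), ∀ a ∈ (tmp n m).map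
        (Sum.map (fun vj => ((sub i vj.1, vj.2) : T (m + 1) × J n)) (id : Lt → Lt)), ∀ k,
        a = .inl k → ∃ u, k.1 = sub i u := by
      intro i a ha k hk
      obtain ⟨y, _, rfl⟩ := List.mem_map.1 ha
      cases y with
      | inl vj =>
        simp only [Sum.map_inl, Sum.inl.injEq] at hk
        exact ⟨vj.1, by rw [← hk]⟩
      | inr a => simp at hk
    refine ⟨once_items _ _, ?_, ?_⟩
    · rw [List.pairwise_cons, List.pairwise_flatMap]
      refine ⟨fun b _ k h => by simp at h, ?_, ?_⟩
      rotate_left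
      · have : (List.finRange 3).Nodup := List.nodup_finRange 3
        refine this.imp fun {i i'} hne => ?_
        intro a ha b hb k h h'
        obtain ⟨u, hu⟩ := sub_item i a ha k h
        obtain ⟨u', hu'⟩ := sub_item i' b hb k h'
        exact hne (sub_inj (hu.symm.trans hu')).1
      intro i _
      rw [List.pairwise_map]
      refine List.Pairwise.imp ?_ ih
      intro a b hab k ha hb
      cases a with
      | inr a => simp at ha
      | inl a =>
        cases b with
        | inr b => simp at hb
        | inl b =>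
          simp only [Sum.map_inl, Sum.inl.injEq] at ha hb
          have : b = a := by
            have h := hb.trans ha.symm
            simp only [Prod.mk.injEq] at h
            exact Prod.ext (sub_inj h.1).2 h.2
          exact hab a rfl (by rw [this])
    · intro a ha b hb k h h'
      have e1 := root_item a ha k h
      rcases List.mem_cons.1 hb with rfl | hb
      · simp at h'
      · obtain ⟨i, _, hb⟩ := List.mem_flatMap.1 hb
        obtain ⟨u, hu⟩ := sub_item i b hb k h'
        exact sub_ne_rt i u (hu.symm.trans e1)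

theorem once_full (n m : ℕ) : Once (full n m) := by
  unfold Once full
  rw [List.pairwise_cons]
  exact ⟨fun b _ k h => by simp at h, once_tmp n m⟩

theorem once_get {n m : ℕ} {i i' : Fin (full n m).length} {k : T m × J n}
    (h : (full n m).get i = .inl k) (h' : (full n m).get i' = .inl k) : i = i' := by
  have h1 := List.pairwise_iff_getElem.1 (once_full n m)
  rcases lt_trichotomy i i' with hlt | heq | hgt
  · exact absurd h' (h1 i i' i.isLt i'.isLt hlt k h)
  · exact heq
  · exact absurd h (h1 i' i i'.isLt i.isLt hgt k h')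

/-! ### the branching program for the marks -/

section Hole

variable {n m : ℕ} {S : Type} (B : NBP (Fin (full n m).length) Lt S)

/-- the branching program for the marks -/
def hole : NBP (T m × J n) Bool S where
  source := B.source
  sink := B.sink
  edge := fun s t y => match y with
    | none => B.edge s t none ∨ ∃ i X a, B.edge s t (some (i, X)) ∧
        (full n m).get i = .inr a ∧ a ∈ X
    | some (k, Y) => ∃ i X, B.edge s t (some (i, X)) ∧ (full n m).get i = .inl k ∧
        Y = {b | mkLetter b ∈ X}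

variable {B}

theorem walk_of_hole {s t : S} {l' : List ((T m × J n) × Set Bool)}
    (h : (hole B).Walk s t l') : ∃ l, B.Walk s t l ∧
      l'.map Prod.fst = (l.map Prod.fst).filterMap fun i => ((full n m).get i).getLeft? := by
  induction h with
  | nil s => exact ⟨[], .nil s, rfl⟩
  | free h _ ih =>
    obtain ⟨l, h1, h2⟩ := ih
    rcases h with h | ⟨i, X, a, h, h3, h4⟩
    · exact ⟨l, .free h h1, h2⟩
    · refine ⟨(i, X) :: l, .test h h1, ?_⟩
      rw [List.map_cons, List.filterMap_cons, h3]
      exact h2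
  | @test s t u x l h _ ih =>
    obtain ⟨l, h1, h2⟩ := ih
    obtain ⟨k, Y⟩ := x
    obtain ⟨i, X, h, h3, h4⟩ := h
    refine ⟨(i, X) :: l, .test h h1, ?_⟩
    rw [List.map_cons, List.map_cons, List.filterMap_cons, h3]
    simp only [Sum.getLeft?_inl]
    rw [h2]

theorem hole_readOnce (hB : B.ReadOnce) : (hole B).ReadOnce := by
  intro l' hl'
  obtain ⟨l, h1, h2⟩ := walk_of_hole hl'
  rw [h2]
  refine List.Nodup.filterMap ?_ (hB l h1)
  intro i i' k hi hi'
  simp only [Option.mem_def, Sum.getLeft?_eq_some_iff] at hi hi'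
  exact once_get hi hi'

theorem accepts_of_hole {μ : T m × J n → Bool} {s t : S} {l' : List ((T m × J n) × Set Bool)}
    (h : (hole B).Walk s t l') (hp : ∀ y ∈ l', μ y.1 ∈ y.2) :
    ∃ l, B.Walk s t l ∧ ∀ y ∈ l, fill μ ((full n m).get y.1) ∈ y.2 := by
  induction h with
  | nil s => exact ⟨[], .nil s, by simp⟩
  | free h _ ih =>
    obtain ⟨l, h1, h2⟩ := ih hp
    rcases h with h | ⟨i, X, a, h, h3, h4⟩
    · exact ⟨l, .free h h1, h2⟩
    · refine ⟨(i, X) :: l, .test h h1, fun y hy => ?_⟩
      rcases List.mem_cons.1 hy with rfl | hy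
      · simp only [h3, fill]; exact h4
      · exact h2 y hy
  | @test s t u x l h _ ih =>
    obtain ⟨l, h1, h2⟩ := ih fun y hy => hp y (List.mem_cons_of_mem _ hy)
    obtain ⟨k, Y⟩ := x
    obtain ⟨i, X, h, h3, h4⟩ := h
    refine ⟨(i, X) :: l, .test h h1, fun y hy => ?_⟩
    rcases List.mem_cons.1 hy with rfl | hy
    · have := hp (k, Y) (List.mem_cons_self ..)
      rw [h4] at this
      simp only [h3, fill]
      exact this
    · exact h2 y hy

theorem hole_of_accepts {μ : T m × J n → Bool} {s t : S}
    {l : List (Fin (full n m).length × Set Lt)}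
    (h : B.Walk s t l) (hp : ∀ y ∈ l, fill μ ((full n m).get y.1) ∈ y.2) :
    ∃ l', (hole B).Walk s t l' ∧ ∀ y ∈ l', μ y.1 ∈ y.2 := by
  induction h with
  | nil s => exact ⟨[], .nil s, by simp⟩
  | free h _ ih =>
    obtain ⟨l, h1, h2⟩ := ih hp
    exact ⟨l, .free (Or.inl h) h1, h2⟩
  | @test s t u x l h _ ih =>
    obtain ⟨l', h1, h2⟩ := ih fun y hy => hp y (List.mem_cons_of_mem _ hy)
    obtain ⟨i, X⟩ := x
    have h5 := hp (i, X) (List.mem_cons_self ..)
    rcases hi : (full n m).get i with k | a
    · refine ⟨(k, {b | mkLetter b ∈ X}) :: l', .test ⟨i, X, h, hi, rfl⟩ h1, fun y hy => ?_⟩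
      rcases List.mem_cons.1 hy with rfl | hy
      · rw [hi] at h5
        exact h5
      · exact h2 y hy
    · rw [hi] at h5
      exact ⟨l', .free (Or.inr ⟨i, X, a, h, hi, h5⟩) h1, h2⟩

theorem hole_accepts (hB : Recognizes B aut) (μ : T m × J n → Bool) :
    (hole B).Accepts μ ↔ Good m μ 0 := by
  rw [← accepts_full]
  have h1 : List.ofFn (fun i => fill μ ((full n m).get i)) = (full n m).map (fill μ) := by
    rw [show (fun i => fill μ ((full n m).get i)) = fill μ ∘ (full n m).get from rfl,
      ← List.map_ofFn, List.ofFn_get]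
  rw [← h1, ← hB]
  constructor
  · rintro ⟨l', h2, h3⟩
    exact accepts_of_hole h2 h3
  · rintro ⟨l, h2, h3⟩
    exact hole_of_accepts h2 h3

end Hole

/-- **The lower bound.** -/
theorem card_ge {n m : ℕ} (hn : 0 < n) {S : Type} [Fintype S]
    {B : NBP (Fin (full n m).length) Lt S} (hR : B.ReadOnce) (hB : Recognizes B aut) :
    n ^ m ≤ Fintype.card S :=
  bound (x := ⟨0, hn⟩) (hole_readOnce hR) (hole_accepts hB)

/-! ### the length of the template -/

theorem length_code {n : ℕ} (k : ℕ) (j : J n) : (code k j).length ≤ 4 * n := by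
  have h1 : (popCode j.1).length ≤ n := by
    simp only [popCode, List.length_append, List.length_replicate, List.length_singleton]
    have := j.1.isLt; omega
  have h2 : ∀ i, (pushCode (j.2 i)).length ≤ n := fun i => by
    simp only [pushCode, List.length_cons, List.length_replicate]
    have := (j.2 i).isLt; omega
  cases k with
  | zero => exact h1.trans (by omega)
  | succ k =>
    simp only [code, List.length_append]
    have a0 := h2 0; have a1 := h2 1; have a2 := h2 2
    omega

theorem length_items {n m : ℕ} (k : ℕ) (v : T m) :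
    ((allJ n).flatMap fun j => (.inl (v, j) :: (code k j).map .inr :
      List ((T m × J n) ⊕ Lt))).length ≤ n ^ 4 * (4 * n + 1) := by
  rw [List.length_flatMap]
  have h1 : ∀ x ∈ (allJ n).map fun j => ((.inl (v, j) :: (code k j).map .inr :
      List ((T m × J n) ⊕ Lt))).length, x ≤ 4 * n + 1 := by
    intro x hx
    obtain ⟨j, _, rfl⟩ := List.mem_map.1 hx
    have := length_code k j
    simp only [List.length_cons, List.length_map]
    omega
  have h2 := List.sum_le_card_nsmul _ _ h1
  have h3 : (allJ n).length = n ^ 4 := by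
    rw [allJ, Finset.length_toList, Finset.card_univ, Fintype.card_prod, Fintype.card_fun,
      Fintype.card_fin, Fintype.card_fin]
    ring
  rw [List.length_map, h3, smul_eq_mul] at h2
  exact h2

theorem length_tmp (n : ℕ) : ∀ m, 2 * (tmp n m).length + (n ^ 4 * (4 * n + 1) + 1) ≤
    3 ^ (m + 1) * (n ^ 4 * (4 * n + 1) + 1)
  | 0 => by
    rw [tmp, List.length_append, List.length_singleton]
    have := length_items (n := n) (m := 0) 0 (rt 0)
    omega
  | m + 1 => by
    have ih := length_tmp n m
    have h1 := length_items (n := n) (m := m + 1) (m + 1) (rt (m + 1))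
    rw [tmp, List.length_append, List.length_cons]
    have h2 : ((List.finRange 3).flatMap fun i => (tmp n m).map
        (Sum.map (fun vj => ((sub i vj.1, vj.2) : T (m + 1) × J n)) (id : Lt → Lt))).length =
        3 * (tmp n m).length := by
      rw [List.length_flatMap]
      simp only [List.length_map, List.map_const', List.sum_replicate, List.length_finRange,
        smul_eq_mul]
    have h3 : 3 ^ (m + 1 + 1) * (n ^ 4 * (4 * n + 1) + 1) =
        3 * (3 ^ (m + 1) * (n ^ 4 * (4 * n + 1) + 1)) := by rw [pow_succ 3 (m + 1)]; ring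
    rw [h2, h3]
    omega

theorem length_full {m : ℕ} (hm : 1 ≤ m) : (full (3 ^ m) m).length ≤ 3 ^ (10 * m) := by
  have h1 := length_tmp (3 ^ m) m
  set n := 3 ^ m with hn
  have hn3 : 3 ≤ n := by
    calc 3 = 3 ^ 1 := rfl
      _ ≤ 3 ^ m := Nat.pow_le_pow_right (by norm_num) hm
  have h2 : n ^ 4 * (4 * n + 1) + 1 ≤ n ^ 4 * (5 * n) := by
    have : 1 ≤ n ^ 4 := Nat.one_le_pow _ _ (by omega)
    nlinarith
  have h3 : (full n m).length = (tmp n m).length + 1 := rfl
  have h4 : 3 ^ (m + 1) = 3 * n := by rw [pow_succ, hn, mul_comm]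
  have h5 : 3 ^ (10 * m) = n ^ 10 := by rw [hn, ← pow_mul, mul_comm]
  rw [h3, h5]
  rw [h4] at h1
  have h6 : 3 * n * (n ^ 4 * (4 * n + 1) + 1) ≤ 3 * n * (n ^ 4 * (5 * n)) :=
    Nat.mul_le_mul_left _ h2
  have h7 : 3 * n * (n ^ 4 * (5 * n)) = 15 * n ^ 6 := by ring
  have h8 : 15 * n ^ 6 ≤ n ^ 10 := by
    have : 81 ≤ n ^ 4 := by
      calc 81 = 3 ^ 4 := by norm_num
        _ ≤ n ^ 4 := Nat.pow_le_pow_left hn3 4
    calc 15 * n ^ 6 ≤ n ^ 4 * n ^ 6 := Nat.mul_le_mul_right _ (by omega)
      _ = n ^ 10 := by ring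
  have h9 : 1 ≤ n ^ 4 * (4 * n + 1) := Nat.mul_pos (by positivity) (by omega)
  omega

/-- a superpolynomial bound -/
theorem super (e : ℕ) : ∃ m, 1 ≤ m ∧ (3 ^ (10 * m)) ^ e + e < (3 ^ m) ^ m := by
  refine ⟨11 * (e + 1), by omega, ?_⟩
  set m := 11 * (e + 1) with hm
  have h1 : (3 ^ (10 * m)) ^ e = 3 ^ (10 * m * e) := (pow_mul _ _ _).symm
  have h2 : (3 ^ m) ^ m = 3 ^ (m * m) := (pow_mul _ _ _).symm
  rw [h1, h2]
  have h3 : 10 * m * e + 1 ≤ m * m := by
    calc 10 * m * e + 1 ≤ m * (10 * e) + m * 11 := by
          have : 1 ≤ m := by omega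
          nlinarith
      _ = m * (10 * e + 11) := by ring
      _ ≤ m * m := Nat.mul_le_mul_left _ (by omega)
  have h4 : e < 3 ^ (10 * m * e) * 2 := by
    rcases Nat.eq_zero_or_pos e with rfl | he
    · simp
    · have h5 : e ≤ 10 * m * e := by nlinarith
      have h6 : e < 3 ^ e := Nat.lt_pow_self (by norm_num)
      have h7 : 3 ^ e ≤ 3 ^ (10 * m * e) := Nat.pow_le_pow_right (by norm_num) h5
      omega
  calc 3 ^ (10 * m * e) + e < 3 ^ (10 * m * e) + 3 ^ (10 * m * e) * 2 := by omega
    _ = 3 ^ (10 * m * e + 1) := by rw [pow_succ]; ring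
    _ ≤ 3 ^ (m * m) := Nat.pow_le_pow_right (by norm_num) h3

end Pool.Agent.V7H42.PD
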